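import Pool.Agent.QSB.StmtsE

/-!
# Row S3O of squad QSB (MP_dc0713_gt): the condition `S3` for `SO (p, p + d)`
-/

set_option autoImplicit false

namespace Pool.Agent.QSB.H89

open Matrix Pool.Agent.QSX Pool.Agent.QSN Pool.Agent.QSB

section

variable {p d : ℕ}

theorem sg_inj {i j : Fin (2 * p + d)} (h : sg p d i = sg p d j) : i = j := by
  rw [← sg_sg i, h, sg_sg]

/-- a fixed point of the involution is in the middle -/
theorem md_of_fix {i : Fin (2 * p + d)} (h : sg p d i = i) : Md p d i := by
  by_contra hm
  rw [sg_out hm] at h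
  have h1 := congrArg Fin.val h
  rw [Fin.val_rev] at h1
  apply hm
  unfold Md
  have := i.2
  omega

theorem md_sg {i : Fin (2 * p + d)} : Md p d (sg p d i) ↔ Md p d i := by
  by_cases h : Md p d i
  · rw [sg_mid h]
  · rw [sg_out h, md_rev]

theorem sg_lt {i j : Fin (2 * p + d)} (h : i < j) (hm : ¬ (Md p d i ∧ Md p d j)) :
    sg p d j < sg p d i := by
  have hi := i.2
  have hj := j.2
  rw [Fin.lt_def] at h
  by_cases h1 : Md p d i
  · have h2 : ¬ Md p d j := fun h2 => hm ⟨h1, h2⟩
    rw [sg_mid h1, sg_out h2, Fin.lt_def, Fin.val_rev]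
    unfold Md at h1 h2
    omega
  · by_cases h2 : Md p d j
    · rw [sg_out h1, sg_mid h2, Fin.lt_def, Fin.val_rev]
      unfold Md at h1 h2
      omega
    · rw [sg_out h1, sg_out h2, Fin.lt_def, Fin.val_rev, Fin.val_rev]
      omega

/-- the coordinates of `b` -/
def C (p d : ℕ) (i : Fin (2 * p + d)) : (datO p d).b →ₗ[ℝ] ℝ :=
  (LinearMap.proj i : (Fin (2 * p + d) → ℝ) →ₗ[ℝ] ℝ) ∘ₗ (datO p d).b.subtype

/-- the vector of an element of `b` -/
def cv (c : (datO p d).b) : Fin (2 * p + d) → ℝ := c.1

theorem C_apply (i : Fin (2 * p + d)) (c : (datO p d).b) : C p d i c = cv c i := rfl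

theorem C_sg (i : Fin (2 * p + d)) : C p d (sg p d i) = -C p d i := by
  apply LinearMap.ext
  intro c
  exact c.2 i

theorem C_mid {i : Fin (2 * p + d)} (h : Md p d i) : C p d i = 0 := by
  have h1 := C_sg (p := p) (d := d) i
  rw [sg_mid h] at h1
  apply LinearMap.ext
  intro c
  have h2 : C p d i c = -C p d i c := congrArg (fun f : (datO p d).b →ₗ[ℝ] ℝ => f c) h1
  show C p d i c = 0
  linarith

/-- the unit vectors -/
def uv (p d : ℕ) (s : Fin (2 * p + d)) : (datO p d).b :=
  ⟨fun x : Fin (2 * p + d) => (if x = s then 1 else 0) - (if x = sg p d s then 1 else 0), by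
    intro (x : Fin (2 * p + d))
    show ((if sg p d x = s then 1 else 0) - (if sg p d x = sg p d s then 1 else 0) : ℝ) =
      -((if x = s then 1 else 0) - (if x = sg p d s then 1 else 0))
    have e1 : sg p d x = s ↔ x = sg p d s := by
      constructor
      · rintro rfl
        exact (sg_sg x).symm
      · rintro rfl
        exact sg_sg s
    have e2 : sg p d x = sg p d s ↔ x = s := ⟨sg_inj, fun h => by rw [h]⟩
    simp only [e1, e2]
    ring⟩

theorem C_uv (a s : Fin (2 * p + d)) : C p d a (uv p d s) =
    (if a = s then 1 else 0) - (if a = sg p d s then 1 else 0) := rfl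

/-- the root vectors -/
def ev (p d : ℕ) (i j : Fin (2 * p + d)) : Matrix (Fin (2 * p + d)) (Fin (2 * p + d)) ℝ :=
  Matrix.single i j 1 - Matrix.single (sg p d j) (sg p d i) 1

theorem ev_apply (i j a b : Fin (2 * p + d)) : ev p d i j a b =
    (if i = a ∧ j = b then 1 else 0) - (if sg p d j = a ∧ sg p d i = b then 1 else 0) := by
  unfold ev
  rw [Matrix.sub_apply, Matrix.single_apply, Matrix.single_apply]

theorem ev_mem {i j : Fin (2 * p + d)} (h : i < j) (hm : ¬ (Md p d i ∧ Md p d j)) :
    ev p d i j ∈ (datO p d).n := by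
  refine ⟨fun a b hab => ?_, fun a b => ?_, fun a b ha hb => ?_⟩
  · rw [ev_apply, if_neg, if_neg, sub_zero]
    · rintro ⟨rfl, rfl⟩
      exact absurd (sg_lt h hm) (not_lt.2 hab)
    · rintro ⟨rfl, rfl⟩
      exact absurd h (not_lt.2 hab)
  · rw [ev_apply, ev_apply]
    have e1 : (i = sg p d b ∧ j = sg p d a) ↔ (sg p d j = a ∧ sg p d i = b) := by
      constructor
      · rintro ⟨rfl, rfl⟩
        exact ⟨sg_sg a, sg_sg b⟩
      · rintro ⟨rfl, rfl⟩
        exact ⟨(sg_sg i).symm, (sg_sg j).symm⟩
    have e2 : (sg p d j = sg p d b ∧ sg p d i = sg p d a) ↔ (i = a ∧ j = b) :=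
      ⟨fun h => ⟨sg_inj h.2, sg_inj h.1⟩, fun h => ⟨by rw [h.2], by rw [h.1]⟩⟩
    simp only [e1, e2]
    ring
  · rw [ev_apply, if_neg, if_neg, sub_zero]
    · rintro ⟨rfl, rfl⟩
      exact hm ⟨md_sg.1 hb, md_sg.1 ha⟩
    · rintro ⟨rfl, rfl⟩
      exact hm ⟨ha, hb⟩

theorem ev_rt {i j : Fin (2 * p + d)} (h : i < j) (hm : ¬ (Md p d i ∧ Md p d j))
    (hj : j ≠ sg p d i) : RtV (datO p d) (C p d i - C p d j) (ev p d i j) := by
  refine ⟨⟨ev_mem h hm, fun c => ?_⟩, fun h0 => ?_⟩
  · apply Matrix.ext
    intro (a : Fin (2 * p + d)) (b : Fin (2 * p + d))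
    show (diagonal (cv c) * ev p d i j - ev p d i j * diagonal (cv c)) a b =
      ((C p d i - C p d j) c • ev p d i j) a b
    rw [Matrix.sub_apply, Matrix.diagonal_mul, Matrix.mul_diagonal, Matrix.smul_apply,
      LinearMap.sub_apply, C_apply, C_apply, smul_eq_mul, ev_apply]
    by_cases h1 : i = a ∧ j = b
    · obtain ⟨rfl, rfl⟩ := h1
      ring
    · by_cases h2 : sg p d j = a ∧ sg p d i = b
      · obtain ⟨rfl, rfl⟩ := h2
        have e1 : cv c (sg p d j) = -cv c j := c.2 j
        have e2 : cv c (sg p d i) = -cv c i := c.2 i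
        rw [e1, e2]
        ring
      · rw [if_neg h1, if_neg h2]
        ring
  · have h1 : ev p d i j i j = 0 := by rw [h0]; rfl
    rw [ev_apply, if_pos ⟨rfl, rfl⟩, if_neg (fun h2 => hj h2.2.symm)] at h1
    norm_num at h1

/-- the weight of a vector with a nonzero entry -/
theorem wt_entry {ρ : (datO p d).b →ₗ[ℝ] ℝ} {x : Matrix (Fin (2 * p + d)) (Fin (2 * p + d)) ℝ}
    (hx : WtV (datO p d) ρ x) {a b : Fin (2 * p + d)} (h : x a b ≠ 0) :
    C p d a - C p d b = ρ := by
  apply LinearMap.ext
  intro c
  have h1 : (diagonal (cv c) * x - x * diagonal (cv c)) a b = (ρ c • x) a b :=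
    congrFun (congrFun (hx.2 c) a) b
  rw [Matrix.sub_apply, Matrix.diagonal_mul, Matrix.mul_diagonal, Matrix.smul_apply,
    smul_eq_mul] at h1
  rw [LinearMap.sub_apply, C_apply, C_apply]
  apply mul_right_cancel₀ h
  linarith

/-- the weights of two outer indices determine the position up to the symmetry -/
theorem uniq {i j a b : Fin (2 * p + d)} (hi : ¬ Md p d i) (hj : ¬ Md p d j) (hij : i ≠ j)
    (hji : j ≠ sg p d i) (h : C p d a - C p d b = C p d i - C p d j) :
    (a = i ∧ b = j) ∨ (a = sg p d j ∧ b = sg p d i) := by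
  have hi' : i ≠ sg p d i := fun h => hi (md_of_fix h.symm)
  have hj' : j ≠ sg p d j := fun h => hj (md_of_fix h.symm)
  have hij' : i ≠ sg p d j := fun h => hji (by rw [h, sg_sg])
  have h1 := congrArg (fun f : (datO p d).b →ₗ[ℝ] ℝ => f (uv p d i)) h
  have h2 := congrArg (fun f : (datO p d).b →ₗ[ℝ] ℝ => f (uv p d j)) h
  simp only [LinearMap.sub_apply, C_uv] at h1 h2
  rw [if_pos (trivial : True), if_neg hi', if_neg hij.symm, if_neg hji] at h1
  rw [if_pos (trivial : True), if_neg hj', if_neg hij, if_neg hij'] at h2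
  have k1 : a = i ∨ b = sg p d i := by
    by_contra hc
    push Not at hc
    rw [if_neg hc.1, if_neg hc.2] at h1
    have e1 : (0 : ℝ) ≤ if a = sg p d i then 1 else 0 := by split_ifs <;> norm_num
    have e2 : (0 : ℝ) ≤ if b = i then 1 else 0 := by split_ifs <;> norm_num
    linarith
  have k2 : a = sg p d j ∨ b = j := by
    by_contra hc
    push Not at hc
    rw [if_neg hc.1, if_neg hc.2] at h2
    have e1 : (0 : ℝ) ≤ if a = j then 1 else 0 := by split_ifs <;> norm_num
    have e2 : (0 : ℝ) ≤ if b = sg p d j then 1 else 0 := by split_ifs <;> norm_num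
    linarith
  rcases k1 with k1 | k1 <;> rcases k2 with k2 | k2
  · exact absurd (k1.symm.trans k2) hij'
  · exact Or.inl ⟨k1, k2⟩
  · exact Or.inr ⟨k2, k1⟩
  · exact absurd (k2.symm.trans k1) hji

theorem md_of_C {a : Fin (2 * p + d)} (h : C p d a = 0) : Md p d a := by
  by_contra hm
  have ha : a ≠ sg p d a := fun h => hm (md_of_fix h.symm)
  have h1 := congrArg (fun f : (datO p d).b →ₗ[ℝ] ℝ => f (uv p d a)) h
  simp only [LinearMap.zero_apply, C_uv] at h1
  rw [if_pos (trivial : True), if_neg ha] at h1
  norm_num at h1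

/-- the positions of the weight of a short root -/
theorem uniqB {o a b : Fin (2 * p + d)} (ho : ¬ Md p d o) (h : C p d a - C p d b = C p d o) :
    (a = o ∧ Md p d b) ∨ (Md p d a ∧ b = sg p d o) := by
  have ho' : o ≠ sg p d o := fun h => ho (md_of_fix h.symm)
  have h1 := congrArg (fun f : (datO p d).b →ₗ[ℝ] ℝ => f (uv p d o)) h
  simp only [LinearMap.sub_apply, C_uv] at h1
  rw [if_pos (trivial : True), if_neg ho'] at h1
  have k1 : a = o ∨ b = sg p d o := by
    by_contra hc
    push Not at hc
    rw [if_neg hc.1, if_neg hc.2] at h1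
    have e1 : (0 : ℝ) ≤ if a = sg p d o then 1 else 0 := by split_ifs <;> norm_num
    have e2 : (0 : ℝ) ≤ if b = o then 1 else 0 := by split_ifs <;> norm_num
    linarith
  rcases k1 with k1 | k1
  · left
    refine ⟨k1, md_of_C ?_⟩
    rw [k1] at h
    exact sub_eq_self.1 h
  · right
    refine ⟨md_of_C ?_, k1⟩
    rw [k1, C_sg, sub_neg_eq_add] at h
    exact add_eq_right.1 h

/-- the bracket -/
theorem brk {o w r : Fin (2 * p + d)} (ho : ¬ Md p d o) (hw : ¬ Md p d w) (hr : Md p d r)
    (how : w ≠ sg p d o) :
    ev p d o r = ev p d o w * ev p d w r - ev p d w r * ev p d o w := by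
  have hro : r ≠ o := by rintro rfl; exact ho hr
  have hrw : r ≠ w := by rintro rfl; exact hw hr
  have hro' : r ≠ sg p d o := by rintro rfl; exact ho (md_sg.1 hr)
  have hrw' : r ≠ sg p d w := by rintro rfl; exact hw (md_sg.1 hr)
  have hwo : sg p d w ≠ o := fun h => how (by rw [← h, sg_sg])
  unfold ev
  rw [sg_mid hr]
  simp only [sub_mul, mul_sub]
  rw [Matrix.single_mul_single_same, Matrix.single_mul_single_same,
    Matrix.single_mul_single_of_ne _ _ _ _ how.symm, Matrix.single_mul_single_of_ne _ _ _ _ hrw.symm,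
    Matrix.single_mul_single_of_ne _ _ _ _ hro'.symm, Matrix.single_mul_single_of_ne _ _ _ _ hro,
    Matrix.single_mul_single_of_ne _ _ _ _ hrw', Matrix.single_mul_single_of_ne _ _ _ _ hwo]
  simp

end

/-- **S3O** -/
theorem s3o : S3oStmt := by
  intro p d hp ρ hρ
  obtain ⟨x, hx⟩ : ∃ x : Matrix (Fin (2 * p + d)) (Fin (2 * p + d)) ℝ,
    RtV (datO p d) ρ x := hρ
  have hn : SU x ∧ (∀ i j, x (sg p d j) (sg p d i) = -x i j) ∧
      ∀ i j, Md p d i → Md p d j → x i j = 0 := hx.1.1
  obtain ⟨i, j, hij⟩ : ∃ i j : Fin (2 * p + d), x i j ≠ 0 := by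
    by_contra h
    push Not at h
    exact hx.2 (Matrix.ext h)
  have hlt : i < j := by
    by_contra h
    exact hij (hn.1 i j (not_lt.1 h))
  have hji : j ≠ sg p d i := by
    intro h
    have h1 := hn.2.1 i j
    have e : sg p d j = i := by rw [h, sg_sg]
    rw [e, ← h] at h1
    exact hij (by linarith)
  have hρ' := wt_entry hx.1 hij
  -- the short roots
  have short : ∀ i j : Fin (2 * p + d), ¬ Md p d i → Md p d j → i < j → C p d i - C p d j = ρ →
      Gnd (datO p d) ρ ∨ (∃ γ, IsRt (datO p d) γ ∧ IsRt (datO p d) ((2 : ℝ) • ρ + γ)) := by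
    intro i j hi hj hlt he
    rw [C_mid hj, sub_zero] at he
    have hip : (i : ℕ) < p := by
      unfold Md at hi hj
      rw [Fin.lt_def] at hlt
      omega
    have hi2 := i.2
    rcases Nat.eq_zero_or_pos (i : ℕ) with h0 | h0
    · left
      intro (y : Matrix (Fin (2 * p + d)) (Fin (2 * p + d)) ℝ) hy
      let w : Fin (2 * p + d) := ⟨1, by omega⟩
      have hw : ¬ Md p d w := by
        unfold Md
        show ¬ (p ≤ 1 ∧ _)
        omega
      have hiw : i < w := by
        rw [Fin.lt_def, h0]
        exact one_pos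
      have hwi : w ≠ sg p d i := by
        intro h
        have h1 := congrArg Fin.val h
        rw [sg_out hi, Fin.val_rev] at h1
        have h2 : (w : ℕ) = 1 := rfl
        omega
      have hyn : SU y ∧ (∀ i j, y (sg p d j) (sg p d i) = -y i j) ∧
          ∀ i j, Md p d i → Md p d j → y i j = 0 := hy.1.1
      have hpos : ∀ a b : Fin (2 * p + d), y a b ≠ 0 → (a = i ∧ Md p d b) ∨ (Md p d a ∧ b = sg p d i) :=
        fun a b hab => uniqB hi ((wt_entry hy.1 hab).trans he.symm)
      have hsum : y = ∑ r, y i r • ev p d i r := by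
        apply Matrix.ext
        intro a b
        rw [Matrix.sum_apply]
        simp only [Matrix.smul_apply, smul_eq_mul, ev_apply]
        have e1 : ∑ r, y i r * ((if i = a ∧ r = b then (1 : ℝ) else 0) -
            (if sg p d r = a ∧ sg p d i = b then 1 else 0)) =
            (if i = a then y a b else 0) + (if sg p d i = b then y a b else 0) := by
          simp only [mul_sub]
          rw [Finset.sum_sub_distrib]
          have e2 : ∑ r, y i r * (if i = a ∧ r = b then (1 : ℝ) else 0) =
              if i = a then y a b else 0 := by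
            rw [Finset.sum_eq_single b]
            · by_cases h : i = a
              · subst h
                simp
              · simp [h]
            · intro r _ hr
              simp [hr]
            · intro h
              exact absurd (Finset.mem_univ b) h
          have e3 : ∑ r, y i r * (if sg p d r = a ∧ sg p d i = b then (1 : ℝ) else 0) =
              -(if sg p d i = b then y a b else 0) := by
            rw [Finset.sum_eq_single (sg p d a)]
            · by_cases h : sg p d i = b
              · subst h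
                have h3 := hyn.2.1 i (sg p d a)
                rw [sg_sg] at h3
                rw [h3, sg_sg]
                simp
              · simp [h]
            · intro r _ hr
              have : sg p d r ≠ a := fun h => hr (by rw [← h, sg_sg])
              simp [this]
            · intro h
              exact absurd (Finset.mem_univ _) h
          rw [e2, e3, sub_neg_eq_add]
        rw [e1]
        by_cases h : y a b = 0
        · simp [h]
        · rcases hpos a b h with ⟨h1, h2⟩ | ⟨h1, h2⟩
          · rw [if_pos h1.symm, if_neg, add_zero]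
            rintro rfl
            exact hi (md_sg.1 h2)
          · rw [if_neg, if_pos h2.symm, zero_add]
            rintro rfl
            exact hi h1
      rw [hsum]
      refine Submodule.sum_mem _ fun r _ => ?_
      by_cases hr : y i r = 0
      · rw [hr, zero_smul]
        exact Submodule.zero_mem _
      · refine Submodule.smul_mem _ _ (Submodule.subset_span ?_)
        have hrm : Md p d r := by
          rcases hpos i r hr with ⟨-, h2⟩ | ⟨h1, -⟩
          · exact h2
          · exact absurd h1 hi
        have cii : C p d i (uv p d i) = 1 := by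
          rw [C_uv, if_pos rfl, if_neg (fun h => hi (md_of_fix h.symm)), sub_zero]
        have cwi : C p d w (uv p d i) = 0 := by
          rw [C_uv, if_neg hiw.ne', if_neg hwi, sub_zero]
        refine ⟨C p d i - C p d w, C p d w, ev p d i w, ev p d w r, ⟨?_, ?_⟩, ?_,
          ev_rt hiw (fun h => hi h.1) hwi, ?_, brk hi hw hrm hwi⟩
        · intro c hc
          have h1 := congrArg (fun f : (datO p d).b →ₗ[ℝ] ℝ => f (uv p d i)) hc
          simp only [LinearMap.sub_apply, LinearMap.smul_apply, cii, cwi, smul_eq_mul] at h1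
          norm_num at h1
        · intro c hc
          have h1 := congrArg (fun f : (datO p d).b →ₗ[ℝ] ℝ => f (uv p d i)) hc
          simp only [LinearMap.sub_apply, LinearMap.smul_apply, cii, cwi, smul_eq_mul] at h1
          have hc0 : c = 0 := by linarith
          rw [hc0, zero_smul] at hc
          exact hw (md_of_C hc)
        · rw [sub_add_cancel, he]
        · have hwr : w < r := by
            unfold Md at hrm
            rw [Fin.lt_def]
            have h2 : (w : ℕ) = 1 := rfl
            omega
          have h3 := ev_rt hwr (fun h => hw h.1)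
            (by rintro rfl; exact hw (md_sg.1 hrm))
          rwa [C_mid hrm, sub_zero] at h3
    · right
      let w : Fin (2 * p + d) := ⟨(i : ℕ) - 1, by omega⟩
      have hwv : (w : ℕ) = (i : ℕ) - 1 := rfl
      have hw : ¬ Md p d w := by
        unfold Md
        omega
      have hiw : w < i := by
        rw [Fin.lt_def]
        omega
      refine ⟨C p d w - C p d i, ⟨_, ev_rt hiw (fun h => hi h.2) ?_⟩, ?_⟩
      · intro h
        have h1 := congrArg Fin.val h
        rw [sg_out hw, Fin.val_rev] at h1
        omega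
      · have e : (2 : ℝ) • ρ + (C p d w - C p d i) = C p d w - C p d (sg p d i) := by
          rw [← he, C_sg, two_smul]
          abel
        rw [e]
        refine ⟨_, ev_rt ?_ (fun h => hw h.1) ?_⟩
        · rw [Fin.lt_def, sg_out hi, Fin.val_rev]
          omega
        · intro h
          exact hiw.ne' (sg_inj h)
  by_cases hi : Md p d i
  · -- the mirror image is a short root
    have hj : ¬ Md p d j := fun hj => hij (hn.2.2 i j hi hj)
    have he : C p d (sg p d j) - C p d (sg p d i) = ρ := by
      rw [C_sg, C_sg, ← hρ']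
      abel
    rcases short (sg p d j) (sg p d i) (fun h => hj (md_sg.1 h)) (md_sg.2 hi)
      (sg_lt hlt (fun h => hj h.2)) he with h | h
    · exact Or.inl h
    · exact Or.inr (Or.inr (Or.inr (Or.inl h)))
  · by_cases hj : Md p d j
    · rcases short i j hi hj hlt hρ' with h | h
      · exact Or.inl h
      · exact Or.inr (Or.inr (Or.inr (Or.inl h)))
    · -- a root space of dimension one
      right; right; left
      intro (y : Matrix (Fin (2 * p + d)) (Fin (2 * p + d)) ℝ)
        (z : Matrix (Fin (2 * p + d)) (Fin (2 * p + d)) ℝ) hy hz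
      have hpos : ∀ (y : Matrix (Fin (2 * p + d)) (Fin (2 * p + d)) ℝ), RtV (datO p d) ρ y →
          ∀ a b : Fin (2 * p + d), y a b ≠ 0 → (a = i ∧ b = j) ∨ (a = sg p d j ∧ b = sg p d i) :=
        fun y hy a b hab => uniq hi hj hlt.ne hji ((wt_entry hy.1 hab).trans hρ'.symm)
      have hsym : ∀ (y : Matrix (Fin (2 * p + d)) (Fin (2 * p + d)) ℝ), RtV (datO p d) ρ y →
          y (sg p d j) (sg p d i) = -y i j := fun y hy => hy.1.1.2.1 i j
      have hy0 : y i j ≠ 0 := by
        intro h0
        apply hy.2
        apply Matrix.ext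
        intro a b
        by_contra hab
        rcases hpos y hy a b hab with ⟨rfl, rfl⟩ | ⟨rfl, rfl⟩
        · exact hab h0
        · apply hab
          rw [hsym y hy, h0]
          exact neg_zero
      refine ⟨z i j / y i j, ?_⟩
      apply Matrix.ext
      intro a b
      show z a b = (z i j / y i j) * y a b
      by_cases h1 : a = i ∧ b = j
      · obtain ⟨rfl, rfl⟩ := h1
        field_simp
      · by_cases h2 : a = sg p d j ∧ b = sg p d i
        · obtain ⟨rfl, rfl⟩ := h2
          rw [hsym y hy, hsym z hz]
          field_simp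
        · have e1 : z a b = 0 := by
            by_contra h
            rcases hpos z hz a b h with h | h
            · exact h1 h
            · exact h2 h
          have e2 : y a b = 0 := by
            by_contra h
            rcases hpos y hy a b h with h | h
            · exact h1 h
            · exact h2 h
          rw [e1, e2, mul_zero]

end Pool.Agent.QSB.H89
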