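import Pool.Agent.QSB.StmtsS

/-!
# Row WTR of squad QSB: vectors of a given weight, and the roots
-/

set_option autoImplicit false

namespace Pool.Agent.QSB.H89

open Matrix Finset Pool.Agent.QSX Pool.Agent.QSB

/-- WTR. -/
theorem wtr : WtrStmt := by
  intro X R ρ
  have main : ∀ x, WtV X ρ x → x ∈ Submodule.span ℝ (R.e '' {t | R.rt t = ρ}) := by
    rintro x ⟨hx, hw⟩
    rw [← R.span_e, Submodule.mem_span_range_iff_exists_fun] at hx
    obtain ⟨a, ha⟩ := hx
    have key : ∀ c : X.b, ∀ t, a t * (R.rt t c - ρ c) = 0 := by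
      intro c
      have h1 : ∑ t, (a t * (R.rt t c - ρ c)) • R.e t = 0 := by
        have h2 := hw c
        rw [← ha, Finset.mul_sum, Finset.sum_mul, ← Finset.sum_sub_distrib,
          Finset.smul_sum] at h2
        have h3 : ∑ t, (a t * (R.rt t c - ρ c)) • R.e t =
            ∑ t, (diagonal (c : Fin X.m → ℝ) * a t • R.e t -
              a t • R.e t * diagonal (c : Fin X.m → ℝ)) - ∑ t, ρ c • a t • R.e t := by
          rw [← Finset.sum_sub_distrib]
          refine Finset.sum_congr rfl fun t _ => ?_
          rw [Matrix.mul_smul, Matrix.smul_mul, ← smul_sub, R.wt t c, smul_smul, smul_smul,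
            ← sub_smul]
          congr 1
          ring
        rw [h3, h2, sub_self]
      exact Fintype.linearIndependent_iff.mp R.lin _ h1
    rw [← ha]
    refine Submodule.sum_mem _ fun t _ => ?_
    by_cases h0 : a t = 0
    · rw [h0, zero_smul]
      exact Submodule.zero_mem _
    · refine Submodule.smul_mem _ _ (Submodule.subset_span ⟨t, ?_, rfl⟩)
      show R.rt t = ρ
      refine LinearMap.ext fun c => ?_
      have h := key c t
      rcases mul_eq_zero.mp h with h | h
      · exact absurd h h0
      · exact sub_eq_zero.mp h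
  refine ⟨main, ?_, ?_⟩
  · rintro ⟨x, hx, hx0⟩
    by_contra hno
    push Not at hno
    have h1 := main x hx
    have h2 : {t | R.rt t = ρ} = (∅ : Set R.ι) := by
      ext t
      simp [hno t]
    rw [h2, Set.image_empty, Submodule.span_empty, Submodule.mem_bot] at h1
    exact hx0 h1
  · rintro ⟨l, rfl⟩
    refine ⟨R.e l, ⟨?_, fun c => R.wt l c⟩, R.lin.ne_zero l⟩
    rw [← R.span_e]
    exact Submodule.subset_span ⟨l, rfl⟩

end Pool.Agent.QSB.H89
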